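import Pool.Agent.Work.MP_64ea0f_cs.InterfaceA

set_option autoImplicit false

namespace Pool.CS

namespace PFFaux

variable (D : Rd)

lemma B_e (u : D.V) (t : D.S) : D.B u (D.e t) = ∑ r, u r * D.k r t := by
  classical
  unfold Rd.B bform Rd.e
  refine Finset.sum_congr rfl fun r _ => ?_
  rw [Finset.sum_eq_single t]
  · simp
  · intro b _ hb
    simp [Pi.single_eq_of_ne hb]
  · intro h
    exact absurd (Finset.mem_univ t) h

lemma key (u a : D.V) :
    D.B (fun t => u t * a t) (fun t => u t * a t) =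
      ∑ t, u t * (a t) ^ 2 * D.B u (D.e t) +
        (1 / 2) * ∑ r, ∑ t, (-D.k r t) * u r * u t * (a r - a t) ^ 2 := by
  have hQ : D.B (fun t => u t * a t) (fun t => u t * a t) =
      ∑ r, ∑ t, D.k r t * u r * u t * (a r * a t) := by
    unfold Rd.B bform
    refine Finset.sum_congr rfl fun r _ => Finset.sum_congr rfl fun t _ => ?_
    ring
  have hP : ∑ t, u t * (a t) ^ 2 * D.B u (D.e t) =
      ∑ r, ∑ t, D.k r t * u r * u t * (a t) ^ 2 := by
    rw [Finset.sum_comm]
    refine Finset.sum_congr rfl fun t _ => ?_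
    rw [B_e, Finset.mul_sum]
    refine Finset.sum_congr rfl fun r _ => ?_
    ring
  have hP' : ∑ r, ∑ t, D.k r t * u r * u t * (a r) ^ 2 =
      ∑ r, ∑ t, D.k r t * u r * u t * (a t) ^ 2 := by
    rw [Finset.sum_comm]
    refine Finset.sum_congr rfl fun t _ => Finset.sum_congr rfl fun r _ => ?_
    rw [D.symm r t]
    ring
  have hR : ∑ r, ∑ t, (-D.k r t) * u r * u t * (a r - a t) ^ 2 =
      2 * ∑ r, ∑ t, D.k r t * u r * u t * (a r * a t) -
        ∑ r, ∑ t, D.k r t * u r * u t * (a r) ^ 2 -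
        ∑ r, ∑ t, D.k r t * u r * u t * (a t) ^ 2 := by
    rw [Finset.mul_sum, ← Finset.sum_sub_distrib, ← Finset.sum_sub_distrib]
    refine Finset.sum_congr rfl fun r _ => ?_
    rw [Finset.mul_sum, ← Finset.sum_sub_distrib, ← Finset.sum_sub_distrib]
    refine Finset.sum_congr rfl fun t _ => ?_
    ring
  rw [hQ, hP, hR, hP']
  ring

/-- positivity of all coordinates -/
lemma pos_all (K : Set D.S)
    (hc : ∀ K' ⊆ K, K'.Nonempty → (∀ s ∈ K', ∀ t ∈ K \ K', D.k s t = 0) → K' = K)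
    (u : D.V) (hu0 : ∀ s, 0 ≤ u s) (huK : D.In K u) (hB : ∀ t ∈ K, 0 ≤ D.B u (D.e t))
    (t0 : D.S) (hpos : 0 < D.B u (D.e t0)) : ∀ t ∈ K, 0 < u t := by
  have h1 : ({t | t ∈ K ∧ 0 < u t} : Set D.S) = K := by
    apply hc
    · intro t ht
      exact ht.1
    · by_contra hne
      rw [Set.not_nonempty_iff_eq_empty] at hne
      have hz : ∀ t, u t = 0 := by
        intro t
        by_cases ht : t ∈ K
        · by_contra h
          have : t ∈ ({t | t ∈ K ∧ 0 < u t} : Set D.S) :=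
            ⟨ht, lt_of_le_of_ne (hu0 t) (Ne.symm h)⟩
          rw [hne] at this
          exact this
        · exact huK t ht
      rw [B_e] at hpos
      simp [hz] at hpos
    · intro s hs t ht
      have hut : u t = 0 := by
        by_contra h
        exact ht.2 ⟨ht.1, lt_of_le_of_ne (hu0 t) (Ne.symm h)⟩
      have h0 := hB t ht.1
      rw [B_e] at h0
      have hle : ∀ r ∈ (Finset.univ : Finset D.S), u r * D.k r t ≤ 0 := by
        intro r _
        by_cases hr : r = t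
        · rw [hr, hut]
          simp
        · exact mul_nonpos_of_nonneg_of_nonpos (hu0 r) (D.off r t hr)
      have hsum : ∑ r, u r * D.k r t = 0 := le_antisymm (Finset.sum_nonpos hle) h0
      have := (Finset.sum_eq_zero_iff_of_nonpos hle).1 hsum s (Finset.mem_univ s)
      rcases mul_eq_zero.1 this with h | h
      · exact absurd h (ne_of_gt hs.2)
      · exact h
  intro t ht
  rw [← h1] at ht
  exact ht.2

/-- positive definiteness -/
lemma pos_def (K : Set D.S)
    (hc : ∀ K' ⊆ K, K'.Nonempty → (∀ s ∈ K', ∀ t ∈ K \ K', D.k s t = 0) → K' = K)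
    (u : D.V) (hu0 : ∀ s, 0 ≤ u s) (huK : D.In K u) (hB : ∀ t ∈ K, 0 ≤ D.B u (D.e t))
    (t0 : D.S) (ht0 : t0 ∈ K) (hpos : 0 < D.B u (D.e t0)) (v : D.V) (hv : D.In K v)
    (hne : v ≠ 0) : 0 < D.B v v := by
  have hup := pos_all D K hc u hu0 huK hB t0 hpos
  set a : D.V := fun t => v t / u t with ha
  have hva : v = fun t => u t * a t := by
    funext t
    by_cases ht : t ∈ K
    · have := ne_of_gt (hup t ht)
      simp only [ha]
      field_simp
    · rw [hv t ht, huK t ht]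
      simp
  have hT1 : ∀ t ∈ (Finset.univ : Finset D.S), 0 ≤ u t * (a t) ^ 2 * D.B u (D.e t) := by
    intro t _
    by_cases ht : t ∈ K
    · exact mul_nonneg (mul_nonneg (hu0 t) (sq_nonneg _)) (hB t ht)
    · rw [huK t ht]
      simp
  have hT2 : ∀ r ∈ (Finset.univ : Finset D.S), ∀ t ∈ (Finset.univ : Finset D.S),
      0 ≤ (-D.k r t) * u r * u t * (a r - a t) ^ 2 := by
    intro r _ t _
    by_cases hrt : r = t
    · rw [hrt]
      simp
    · have h1 : 0 ≤ -D.k r t := by linarith [D.off r t hrt]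
      exact mul_nonneg (mul_nonneg (mul_nonneg h1 (hu0 r)) (hu0 t)) (sq_nonneg _)
  have hT2' : ∀ r ∈ (Finset.univ : Finset D.S),
      0 ≤ ∑ t, (-D.k r t) * u r * u t * (a r - a t) ^ 2 :=
    fun r hr => Finset.sum_nonneg (hT2 r hr)
  have hk := key D u a
  rw [← hva] at hk
  have hS1 := Finset.sum_nonneg hT1
  have hS2 := Finset.sum_nonneg hT2'
  rcases (by rw [hk]; positivity : 0 ≤ D.B v v).lt_or_eq with h | h
  · exact h
  exfalso
  have hz1 : ∑ t, u t * (a t) ^ 2 * D.B u (D.e t) = 0 := by linarith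
  have hz2 : ∑ r, ∑ t, (-D.k r t) * u r * u t * (a r - a t) ^ 2 = 0 := by linarith
  have hat0 : a t0 = 0 := by
    have := (Finset.sum_eq_zero_iff_of_nonneg hT1).1 hz1 t0 (Finset.mem_univ t0)
    have h2 := ne_of_gt (hup t0 ht0)
    have h3 := ne_of_gt hpos
    rcases mul_eq_zero.1 this with h4 | h4
    · rcases mul_eq_zero.1 h4 with h5 | h5
      · exact absurd h5 h2
      · exact pow_eq_zero_iff (two_ne_zero) |>.1 h5
    · exact absurd h4 h3
  have hedge : ∀ r t, -D.k r t * u r * u t * (a r - a t) ^ 2 = 0 := by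
    intro r t
    have h1 := (Finset.sum_eq_zero_iff_of_nonneg hT2').1 hz2 r (Finset.mem_univ r)
    exact (Finset.sum_eq_zero_iff_of_nonneg (hT2 r (Finset.mem_univ r))).1 h1 t
      (Finset.mem_univ t)
  have hK : ({t | t ∈ K ∧ a t = 0} : Set D.S) = K := by
    apply hc
    · intro t ht
      exact ht.1
    · exact ⟨t0, ht0, hat0⟩
    · intro s hs t ht
      have hat : a t ≠ 0 := fun h5 => ht.2 ⟨ht.1, h5⟩
      have h6 := hedge s t
      rw [hs.2] at h6
      have h7 := ne_of_gt (hup s hs.1)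
      have h8 := ne_of_gt (hup t ht.1)
      rcases mul_eq_zero.1 h6 with h9 | h9
      · rcases mul_eq_zero.1 h9 with h10 | h10
        · rcases mul_eq_zero.1 h10 with h11 | h11
          · exact neg_eq_zero.1 h11
          · exact absurd h11 h7
        · exact absurd h10 h8
      · have h12 := pow_eq_zero_iff (two_ne_zero) |>.1 h9
        exact absurd (by linarith : a t = 0) hat
  apply hne
  rw [hva]
  funext t
  by_cases ht : t ∈ K
  · have h5 : t ∈ ({t | t ∈ K ∧ a t = 0} : Set D.S) := by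
      rw [hK]
      exact ht
    simp [h5.2]
  · simp [huK t ht]

/-- coercivity -/
lemma coercive (K : Set D.S) (hpd : ∀ v : D.V, D.In K v → v ≠ 0 → 0 < D.B v v) :
    ∃ ε : ℝ, 0 < ε ∧ ∀ v : D.V, D.In K v → ε * ‖v‖ ^ 2 ≤ D.B v v := by
  have hcont : Continuous (fun v : D.V => D.B v v) := by
    unfold Rd.B bform
    fun_prop
  have hclosed : IsClosed {v : D.V | D.In K v} := by
    have : {v : D.V | D.In K v} = ⋂ s ∈ Kᶜ, {v : D.V | v s = 0} := by
      ext v
      simp [Rd.In]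
    rw [this]
    refine isClosed_biInter fun s _ => ?_
    exact isClosed_eq (continuous_apply s) continuous_const
  have hcomp : IsCompact (Metric.sphere (0 : D.V) 1 ∩ {v : D.V | D.In K v}) :=
    (isCompact_sphere (0 : D.V) 1).inter_right hclosed
  have hhom : ∀ (c : ℝ) (v : D.V), D.B (c • v) (c • v) = c ^ 2 * D.B v v := by
    intro c v
    unfold Rd.B bform
    rw [Finset.mul_sum]
    refine Finset.sum_congr rfl fun r _ => ?_
    rw [Finset.mul_sum]
    refine Finset.sum_congr rfl fun t _ => ?_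
    simp only [Pi.smul_apply, smul_eq_mul]
    ring
  rcases (Metric.sphere (0 : D.V) 1 ∩ {v : D.V | D.In K v}).eq_empty_or_nonempty with he | hne
  · refine ⟨1, one_pos, fun v hv => ?_⟩
    by_cases hv0 : v = 0
    · rw [hv0]
      have := hhom 0 0
      simp at this
      simp [this]
    · exfalso
      have hn : 0 < ‖v‖ := norm_pos_iff.2 hv0
      have : ‖v‖⁻¹ • v ∈ (Metric.sphere (0 : D.V) 1 ∩ {v : D.V | D.In K v}) := by
        constructor
        · rw [mem_sphere_zero_iff_norm, norm_smul, norm_inv, norm_norm]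
          exact inv_mul_cancel₀ (ne_of_gt hn)
        · intro s hs
          simp [hv s hs]
      rw [he] at this
      exact this
  · obtain ⟨m, hm, hmin⟩ := hcomp.exists_isMinOn hne hcont.continuousOn
    have hm0 : m ≠ 0 := by
      intro h
      have := hm.1
      rw [h] at this
      simp at this
    refine ⟨D.B m m, hpd m hm.2 hm0, fun v hv => ?_⟩
    by_cases hv0 : v = 0
    · rw [hv0]
      have := hhom 0 0
      simp at this
      simp [this]
    · have hn : 0 < ‖v‖ := norm_pos_iff.2 hv0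
      have h1 : ‖v‖⁻¹ • v ∈ (Metric.sphere (0 : D.V) 1 ∩ {v : D.V | D.In K v}) := by
        constructor
        · rw [mem_sphere_zero_iff_norm, norm_smul, norm_inv, norm_norm]
          exact inv_mul_cancel₀ (ne_of_gt hn)
        · intro s hs
          simp [hv s hs]
      have h2 : D.B m m ≤ D.B (‖v‖⁻¹ • v) (‖v‖⁻¹ • v) := hmin h1
      rw [hhom] at h2
      have h3 : 0 < ‖v‖ ^ 2 := by positivity
      calc D.B m m * ‖v‖ ^ 2 ≤ (‖v‖⁻¹ ^ 2 * D.B v v) * ‖v‖ ^ 2 :=
            mul_le_mul_of_nonneg_right h2 h3.le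
        _ = D.B v v := by
            field_simp

end PFFaux

open PFFaux

theorem pff_thm : Stmt_BAS → Stmt_SGN → Stmt_LEN → Stmt_PAR → Stmt_HGT → Stmt_PFF := by
  intro hBAS hSGN hLEN hPAR hHGT D K hc hu
  obtain ⟨u, hu0, huK, hB, t0, ht0, hpos⟩ := hu
  obtain ⟨-, -, -, -, -, hone, -, hRtρ, hneg, -⟩ := hBAS D
  obtain ⟨hsg1, hsg2, -⟩ := hSGN D
  obtain ⟨-, hlen0, -⟩ := hLEN D
  obtain ⟨hp1, -, hp3, -⟩ := hPAR D K
  have hpd := pos_def D K hc u hu0 huK hB t0 ht0 hpos
  obtain ⟨ε, hε, hco⟩ := coercive D K hpd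
  -- bounded heights
  have hnorm : ∀ φ ∈ D.Rt, D.In K φ → ‖φ‖ ≤ 1 + 1 / ε := by
    intro φ hφ hφK
    have h1 := hco φ hφK
    rw [hone φ hφ] at h1
    have h2 : ‖φ‖ ^ 2 ≤ 1 / ε := by
      rw [le_div_iff₀ hε]
      linarith
    have h3 : 0 < 1 / ε := by positivity
    nlinarith [norm_nonneg φ, sq_nonneg (‖φ‖ - 1)]
  have hPf : {φ | φ ∈ D.Ps ∧ D.In K φ}.Finite := by
    refine (hHGT D ((Fintype.card D.S) * (1 + 1 / ε))).subset ?_
    rintro φ ⟨hφ, hφK⟩
    refine ⟨hφ, ?_⟩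
    have h1 := hnorm φ hφ.1 hφK
    unfold Rd.ht
    calc ∑ s, φ s ≤ ∑ _s : D.S, (1 + 1 / ε) := by
          refine Finset.sum_le_sum fun s _ => ?_
          exact (le_abs_self _).trans ((norm_le_pi_norm φ s).trans h1)
      _ = (Fintype.card D.S) * (1 + 1 / ε) := by
          rw [Finset.sum_const, Finset.card_univ, nsmul_eq_mul]
  have hRf : {φ | φ ∈ D.Rt ∧ D.In K φ}.Finite := by
    refine (hPf.union (hPf.image (fun v => -v))).subset ?_
    rintro φ ⟨hφ, hφK⟩
    rcases hsg1 φ hφ with h | h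
    · exact Or.inl ⟨h, hφK⟩
    · refine Or.inr ⟨-φ, ⟨h, ?_⟩, neg_neg φ⟩
      intro s hs
      simp [hφK s hs]
  haveI : Finite ↥({φ | φ ∈ D.Rt ∧ D.In K φ} : Set D.V) := hRf
  have hmem : ∀ (w : D.W), w ∈ D.par K → ∀ φ, φ ∈ D.Rt ∧ D.In K φ →
      D.ρ w φ ∈ D.Rt ∧ D.In K (D.ρ w φ) := by
    rintro w hw φ ⟨hφ, hφK⟩
    refine ⟨hRtρ φ hφ w, fun s hs => ?_⟩
    have h1 := hp3 w hw φ s hs
    rw [Pi.sub_apply, hφK s hs, sub_zero] at h1
    exact h1
  refine Finite.of_injective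
    (fun w : D.par K => fun φ : ({φ | φ ∈ D.Rt ∧ D.In K φ} : Set D.V) =>
      (⟨D.ρ w.1 φ.1, hmem w.1 w.2 φ.1 φ.2⟩ : ({φ | φ ∈ D.Rt ∧ D.In K φ} : Set D.V))) ?_
  intro w w' hww
  have h1 : ∀ φ, φ ∈ D.Rt → D.In K φ → D.ρ w.1 φ = D.ρ w'.1 φ := by
    intro φ hφ hφK
    have := congrFun hww ⟨φ, hφ, hφK⟩
    exact congrArg Subtype.val this
  have hg : w.1⁻¹ * w'.1 ∈ D.par K := (D.par K).mul_mem ((D.par K).inv_mem w.2) w'.2
  have h2 : D.N (w.1⁻¹ * w'.1) = ∅ := by
    rw [Set.eq_empty_iff_forall_notMem]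
    intro φ hφ
    have hφK := (hp1 (w.1⁻¹ * w'.1)).1 hg φ hφ
    apply hφ.2
    have : D.ρ (w.1⁻¹ * w'.1) φ = φ := by
      rw [map_mul, Module.End.mul_apply, ← h1 φ hφ.1.1 hφK, ← Module.End.mul_apply, ← map_mul,
        inv_mul_cancel, map_one, Module.End.one_apply]
    rw [this]
    exact hφ.1
  have h3 : w.1⁻¹ * w'.1 = 1 := by
    rw [← hlen0]
    unfold Rd.len
    rw [h2, Set.ncard_empty]
  exact Subtype.ext (inv_mul_eq_one.1 h3)

end Pool.CS
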