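import Pool.Agent.Work.MP_64ea0f_cs.InterfaceA

set_option autoImplicit false

namespace Pool.CS

namespace RSFaux

/-- vectors with coordinates in `A` -/
def L (D : Rd) (A : Subring ℝ) : Set D.V := {v | ∀ s, v s ∈ A}

section

variable {D : Rd} {A : Subring ℝ}

lemma L_add {v w : D.V} (hv : v ∈ L D A) (hw : w ∈ L D A) : v + w ∈ L D A :=
  fun s => A.add_mem (hv s) (hw s)

lemma L_neg {v : D.V} (hv : v ∈ L D A) : -v ∈ L D A :=
  fun s => A.neg_mem (hv s)

lemma L_smul {v : D.V} (hv : v ∈ L D A) (n : ℕ) : (n : ℝ) • v ∈ L D A :=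
  fun s => A.mul_mem (natCast_mem A n) (hv s)

lemma L_e (s : D.S) : D.e s ∈ L D A := by
  intro t
  unfold Rd.e
  by_cases h : t = s
  · rw [h, Pi.single_eq_same]
    exact A.one_mem
  · rw [Pi.single_eq_of_ne h]
    exact A.zero_mem

lemma two_B (hk : ∀ s t, 2 * D.k s t ∈ A) {v : D.V} (hv : v ∈ L D A) (s : D.S) :
    2 * bform D.k v (Pi.single s 1) ∈ A := by
  have : 2 * bform D.k v (Pi.single s 1) = ∑ r, v r * (2 * D.k r s) := by
    unfold bform
    rw [Finset.mul_sum]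
    refine Finset.sum_congr rfl fun r _ => ?_
    rw [Finset.sum_eq_single s]
    · simp
      ring
    · intro b _ hb
      simp [Pi.single_eq_of_ne hb]
    · intro h
      exact absurd (Finset.mem_univ s) h
  rw [this]
  exact A.sum_mem fun r _ => A.mul_mem (hv r) (hk r s)

lemma L_sigma (hk : ∀ s t, 2 * D.k s t ∈ A) (s : D.S) {v : D.V} (hv : v ∈ L D A) :
    D.ρ (D.σ s) v ∈ L D A := by
  rw [D.refl s v]
  intro t
  rw [Pi.sub_apply, Pi.smul_apply, smul_eq_mul]
  exact A.sub_mem (hv t) (A.mul_mem (two_B hk hv s) (L_e s t))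

lemma L_rho (hk : ∀ s t, 2 * D.k s t ∈ A) (hinv : ∀ s, (D.σ s)⁻¹ = D.σ s) (w : D.W) :
    (∀ v ∈ L D A, D.ρ w v ∈ L D A) ∧ (∀ v ∈ L D A, D.ρ w⁻¹ v ∈ L D A) := by
  have hw : w ∈ Subgroup.closure (Set.range D.σ) := by
    rw [D.gen]
    trivial
  induction hw using Subgroup.closure_induction with
  | mem x hx =>
    obtain ⟨s, rfl⟩ := hx
    rw [hinv s]
    exact ⟨fun v hv => L_sigma hk s hv, fun v hv => L_sigma hk s hv⟩
  | one => simp
  | mul x y _ _ hx hy =>
    refine ⟨fun v hv => ?_, fun v hv => ?_⟩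
    · rw [map_mul, Module.End.mul_apply]
      exact hx.1 _ (hy.1 v hv)
    · rw [mul_inv_rev, map_mul, Module.End.mul_apply]
      exact hy.2 _ (hx.2 v hv)
  | inv x _ hx =>
    rw [inv_inv]
    exact ⟨hx.2, hx.1⟩

end

/-- the congruence subgroup -/
def Nn (D : Rd) (A : Subring ℝ) (hL : ∀ (w : D.W), ∀ v ∈ L D A, D.ρ w v ∈ L D A) (n : ℕ) :
    Subgroup D.W where
  carrier := {w | ∀ v ∈ L D A, ∃ v' ∈ L D A, D.ρ w v = v + (n : ℝ) • v'}
  one_mem' := by
    intro v hv
    refine ⟨0, fun s => A.zero_mem, ?_⟩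
    simp
  mul_mem' := by
    intro a b ha hb v hv
    obtain ⟨v', hv', h1⟩ := hb v hv
    obtain ⟨v'', hv'', h2⟩ := ha v hv
    refine ⟨v'' + D.ρ a v', L_add hv'' (hL a v' hv'), ?_⟩
    rw [map_mul, Module.End.mul_apply, h1, map_add, map_smul, h2, smul_add, add_assoc]
  inv_mem' := by
    intro a ha v hv
    obtain ⟨v', hv', h1⟩ := ha (D.ρ a⁻¹ v) (hL _ v hv)
    refine ⟨-v', L_neg hv', ?_⟩
    rw [← Module.End.mul_apply, ← map_mul, mul_inv_cancel, map_one, Module.End.one_apply] at h1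
    rw [smul_neg, ← sub_eq_add_neg, eq_sub_iff_add_eq]
    exact h1.symm

lemma Nn_normal (D : Rd) (A : Subring ℝ) (hL : ∀ (w : D.W), ∀ v ∈ L D A, D.ρ w v ∈ L D A)
    (n : ℕ) : (Nn D A hL n).Normal := by
  constructor
  intro a ha g v hv
  obtain ⟨v', hv', h1⟩ := ha (D.ρ g⁻¹ v) (hL _ v hv)
  refine ⟨D.ρ g v', hL g v' hv', ?_⟩
  rw [map_mul, map_mul, Module.End.mul_apply, Module.End.mul_apply, h1, map_add, map_smul,
    ← Module.End.mul_apply, ← map_mul, mul_inv_cancel, map_one, Module.End.one_apply]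

lemma sum_e (D : Rd) (v : D.V) : v = ∑ s, v s • D.e s := by
  funext t
  rw [Finset.sum_apply, Finset.sum_eq_single t]
  · simp [Rd.e]
  · intro b _ hb
    simp [Rd.e, Pi.single_eq_of_ne (Ne.symm hb)]
  · intro h
    exact absurd (Finset.mem_univ t) h

lemma Nn_finite (D : Rd) (A : Subring ℝ) (hA : Module.Finite ℤ A)
    (hL : ∀ (w : D.W), ∀ v ∈ L D A, D.ρ w v ∈ L D A) (n : ℕ) (hn : 0 < n) :
    (Nn D A hL n).FiniteIndex := by
  have := hA
  have : Module.IsTorsionFree ℤ A := inferInstance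
  have : Module.Free ℤ A := inferInstance
  have hI : (Ideal.span {(n : A)} : Ideal A) ≠ ⊥ := by
    intro h
    rw [Ideal.span_singleton_eq_bot] at h
    exact (Nat.cast_ne_zero.2 hn.ne') h
  have : Finite (A ⧸ (Ideal.span {(n : A)} : Ideal A)) := Ideal.finiteQuotientOfFreeOfNeBot _ hI
  set f : D.W → (D.S → D.S → A ⧸ (Ideal.span {(n : A)} : Ideal A)) :=
    fun w s t => Ideal.Quotient.mk _ ⟨D.ρ w (D.e s) t, hL w _ (L_e s) t⟩ with hf
  have hff : ∀ w w', f w = f w' → w⁻¹ * w' ∈ Nn D A hL n := by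
    intro w w' hww
    -- the difference on basis vectors
    have h1 : ∀ s, ∃ v' ∈ L D A, D.ρ w' (D.e s) = D.ρ w (D.e s) + (n : ℝ) • v' := by
      intro s
      have h2 : ∀ t, ∃ a : A, D.ρ w' (D.e s) t = D.ρ w (D.e s) t + (n : ℝ) * a := by
        intro t
        have h3 := congrFun (congrFun hww s) t
        simp only [hf] at h3
        rw [Ideal.Quotient.eq, Ideal.mem_span_singleton] at h3
        obtain ⟨c, hc⟩ := h3
        have h4 : D.ρ w (D.e s) t - D.ρ w' (D.e s) t = ((n : A) : ℝ) * (c : ℝ) :=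
          congrArg (fun z : A => (z : ℝ)) hc
        refine ⟨-c, ?_⟩
        have h5 : ((n : A) : ℝ) = (n : ℝ) := by simp
        rw [h5] at h4
        rw [Subring.coe_neg]
        linarith
      choose a ha using h2
      refine ⟨fun t => (a t : ℝ), fun t => (a t).2, ?_⟩
      funext t
      rw [Pi.add_apply, Pi.smul_apply, smul_eq_mul]
      exact ha t
    choose v' hv' hvv using h1
    intro v hv
    refine ⟨D.ρ w⁻¹ (∑ s, v s • v' s), hL _ _ ?_, ?_⟩
    · intro t
      rw [Finset.sum_apply]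
      exact A.sum_mem fun s _ => A.mul_mem (hv s) (hv' s t)
    · have h6 : D.ρ w' v = D.ρ w v + (n : ℝ) • ∑ s, v s • v' s := by
        conv_lhs => rw [sum_e D v]
        conv_rhs => rw [sum_e D v]
        simp only [map_sum, map_smul]
        rw [Finset.smul_sum, ← Finset.sum_add_distrib]
        refine Finset.sum_congr rfl fun s _ => ?_
        rw [hvv s, smul_add, smul_comm]
        congr 2
        rw [← sum_e D v]
      rw [map_mul, Module.End.mul_apply, h6, map_add, map_smul, ← Module.End.mul_apply, ← map_mul,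
        inv_mul_cancel, map_one, Module.End.one_apply]
  have : Finite (D.W ⧸ Nn D A hL n) := by
    refine Finite.of_injective (fun q : D.W ⧸ Nn D A hL n => f q.out) ?_
    intro q q' hqq
    have := hff _ _ hqq
    rw [← QuotientGroup.eq] at this
    simpa using this
  exact Subgroup.finiteIndex_of_finite_quotient

/-- a nonzero element of `A` is not divisible by large integers -/
lemma ev_notdiv (A : Subring ℝ) (hA : Module.Finite ℤ A) (a : ℝ) (ha : a ∈ A) (h0 : a ≠ 0) :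
    ∀ᶠ n : ℕ in Filter.atTop, ∀ b ∈ A, a ≠ (n : ℝ) * b := by
  have := hA
  have : Module.Free ℤ A := inferInstance
  let bs := Module.Free.chooseBasis ℤ A
  have h1 : (⟨a, ha⟩ : A) ≠ 0 := by
    intro h
    exact h0 (congrArg Subtype.val h)
  have h2 : bs.repr ⟨a, ha⟩ ≠ 0 := by
    intro h
    exact h1 ((LinearEquiv.map_eq_zero_iff bs.repr).1 h)
  obtain ⟨i, hi⟩ : ∃ i, bs.repr ⟨a, ha⟩ i ≠ 0 := by
    by_contra hcon
    push Not at hcon
    exact h2 (Finsupp.ext hcon)
  filter_upwards [Filter.eventually_gt_atTop (bs.repr ⟨a, ha⟩ i).natAbs] with n hn b hb heq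
  have h3 : (⟨a, ha⟩ : A) = (n : ℤ) • (⟨b, hb⟩ : A) := by
    apply Subtype.ext
    simp [heq]
  have h4 : bs.repr ⟨a, ha⟩ i = (n : ℤ) * bs.repr ⟨b, hb⟩ i := by
    conv_lhs => rw [h3]
    rw [map_smul, Finsupp.smul_apply, smul_eq_mul]
  have h5 : bs.repr ⟨b, hb⟩ i ≠ 0 := by
    intro h
    rw [h, mul_zero] at h4
    exact hi h4
  have h6 : (bs.repr ⟨a, ha⟩ i).natAbs = n * (bs.repr ⟨b, hb⟩ i).natAbs := by
    rw [h4, Int.natAbs_mul, Int.natAbs_natCast]
  have h7 : 0 < (bs.repr ⟨b, hb⟩ i).natAbs := Int.natAbs_pos.2 h5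
  have h8 : n ≤ n * (bs.repr ⟨b, hb⟩ i).natAbs := Nat.le_mul_of_pos_right n h7
  omega

end RSFaux

open RSFaux

theorem rsf_thm : Stmt_BAS → Stmt_SGN → Stmt_PAR → Stmt_PCL → Stmt_RSF := by
  intro hBAS hSGN hPAR hPCL D E hE h1E
  obtain ⟨A, hA, hk⟩ := D.intg
  obtain ⟨-, -, -, -, -, hone, hRte, hRtρ, hneg, hrf, hrf2, -, -, hrfe, -, hfaith⟩ := hBAS D
  have hinv : ∀ s, (D.σ s)⁻¹ = D.σ s := by
    intro s
    have := hrf2 _ (hRte s)
    rw [hrfe s] at this
    exact inv_eq_of_mul_eq_one_left this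
  have hL : ∀ (w : D.W), ∀ v ∈ L D A, D.ρ w v ∈ L D A := fun w => (L_rho hk hinv w).1
  -- torsion representatives
  set T : Set D.W := {p | p ≠ 1 ∧ ∃ J : Set D.S, Finite (D.par J) ∧ p ∈ D.par J} with hT
  have hTf : T.Finite := by
    have : T ⊆ ⋃ J ∈ {J : Set D.S | Finite (D.par J)}, (D.par J : Set D.W) := by
      rintro p ⟨-, J, hJ, hp⟩
      simp only [Set.mem_iUnion]
      exact ⟨J, hJ, hp⟩
    refine Set.Finite.subset (Set.Finite.biUnion (Set.toFinite _) ?_) this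
    intro J hJ
    exact hJ
  have hcong : ∀ x : D.W, x ≠ 1 → ∀ᶠ n : ℕ in Filter.atTop, x ∉ Nn D A hL n := by
    intro x hx
    have h1 : D.ρ x ≠ 1 := fun h => hx (hfaith x h)
    obtain ⟨s, t, hst⟩ : ∃ s t, D.ρ x (D.e s) t - D.e s t ≠ 0 := by
      by_contra hcon
      push Not at hcon
      apply h1
      refine LinearMap.ext fun v => ?_
      rw [Module.End.one_apply]
      conv_lhs => rw [sum_e D v]
      conv_rhs => rw [sum_e D v]
      simp only [map_sum, map_smul]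
      refine Finset.sum_congr rfl fun s _ => ?_
      congr 1
      funext t
      linarith [hcon s t]
    have h2 : D.ρ x (D.e s) t - D.e s t ∈ A := A.sub_mem (hL x _ (L_e s) t) (L_e s t)
    filter_upwards [ev_notdiv A hA _ h2 hst] with n hn hxn
    obtain ⟨v', hv', h3⟩ := hxn (D.e s) (L_e s)
    apply hn (v' t) (hv' t)
    rw [h3, Pi.add_apply, Pi.smul_apply, smul_eq_mul]
    ring
  have h2A : (2 : ℝ) ∈ A := by
    have := natCast_mem A 2
    simpa using this
  have hall : ∀ᶠ n : ℕ in Filter.atTop,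
      (∀ x ∈ E ∪ T, x ∉ Nn D A hL n) ∧ (∀ b ∈ A, (2 : ℝ) ≠ (n : ℝ) * b) ∧ 0 < n := by
    refine Filter.Eventually.and ?_ (Filter.Eventually.and (ev_notdiv A hA 2 h2A two_ne_zero)
      (Filter.eventually_gt_atTop 0))
    rw [Filter.eventually_all_finite (hE.union hTf)]
    rintro x (hx | hx)
    · exact hcong x (fun h => h1E (h ▸ hx))
    · exact hcong x hx.1
  obtain ⟨n, hn1, hn2, hn0⟩ := hall.exists
  have hnor := Nn_normal D A hL n
  refine ⟨Nn D A hL n, hnor, Nn_finite D A hA hL n hn0, ?_, ?_,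
    fun x hx => hn1 x (Or.inl hx)⟩
  · -- torsion free
    intro h hh m hm hpow
    by_contra hne
    have hfin : Finite (Subgroup.zpowers h) :=
      (isOfFinOrder_iff_pow_eq_one.2 ⟨m, hm, hpow⟩).finite_zpowers
    obtain ⟨g, J, hgJ, hJ⟩ := (hPCL D (Subgroup.zpowers h)).2 hfin
    have h1 : h ∈ D.cp g J := hgJ (Subgroup.mem_zpowers h)
    unfold Rd.cp at h1
    rw [Subgroup.mem_map] at h1
    obtain ⟨p, hp, hph⟩ := h1
    have hph' : g * p * g⁻¹ = h := by simpa using hph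
    have hpN : p ∈ Nn D A hL n := by
      have : p = g⁻¹ * h * g⁻¹⁻¹ := by
        rw [← hph']
        group
      rw [this]
      exact hnor.conj_mem h hh g⁻¹
    have hp1 : p ≠ 1 := by
      intro h2
      apply hne
      rw [← hph', h2]
      group
    exact hn1 p (Or.inr ⟨hp1, J, hJ, hp⟩) hpN
  · -- no inversions
    rintro h hh φ ⟨w, s, rfl⟩ heq
    obtain ⟨v', hv', h1⟩ := hh (D.ρ w (D.e s)) (hL w _ (L_e s))
    rw [heq] at h1
    -- `- ρ w e = ρ w e + n v'`
    have h2 : D.ρ w⁻¹ (D.ρ w (D.e s)) = D.e s := by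
      rw [← Module.End.mul_apply, ← map_mul, inv_mul_cancel, map_one, Module.End.one_apply]
    have h3 := congrArg (D.ρ w⁻¹) h1
    rw [map_neg, map_add, map_smul, h2] at h3
    have h4 := congrFun h3 s
    rw [Pi.neg_apply, Pi.add_apply, Pi.smul_apply, smul_eq_mul] at h4
    have h5 : D.e s s = 1 := by
      unfold Rd.e
      rw [Pi.single_eq_same]
    rw [h5] at h4
    apply hn2 (-(D.ρ w⁻¹ v' s)) (A.neg_mem (hL _ _ hv' s))
    linarith

end Pool.CS
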